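import Mathlib

/-!
Core of MP_e40715_an: a weighted translation has no dense orbit.
Abstract form on the circle, for the moduli `Φ = |φ|`, `F = |f|`.
-/

open MeasureTheory Filter Topology Set

namespace Pool.Agent.R784.WT

noncomputable section

abbrev G := UnitAddCircle

lemma ae_shift {p : G → Prop} (h : ∀ᵐ x : G, p x) (t : G) : ∀ᵐ x : G, p (x + t) :=
  (measurePreserving_add_right (volume : Measure G) t).quasiMeasurePreserving.ae h

lemma ae_unshift {p : G → Prop} (t : G) (h : ∀ᵐ x : G, p (x + t)) : ∀ᵐ x : G, p x := by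
  have := ae_shift h (-t)
  simpa using this

/-- the rotation. -/
def rot (t : G) : C(G, G) := ⟨fun x => x + t, by fun_prop⟩

lemma rot_apply (t x : G) : rot t x = x + t := rfl

lemma rot_mp (t : G) : MeasurePreserving (rot t) (volume : Measure G) volume :=
  measurePreserving_add_right volume t

lemma rot_cont : Continuous rot := by
  have : Continuous (fun p : G × G => p.2 + p.1) := by fun_prop
  exact (ContinuousMap.curry ⟨fun p : G × G => p.2 + p.1, this⟩).continuous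

/-- the composition with a rotation in `L^1`. -/
def comp (t : G) (V : Lp ℝ 1 (volume : Measure G)) : Lp ℝ 1 (volume : Measure G) :=
  Lp.compMeasurePreserving (rot t) (rot_mp t) V

lemma comp_tendsto (V : Lp ℝ 1 (volume : Measure G)) (t : ℕ → G) (β : G)
    (ht : Tendsto t atTop (𝓝 β)) : Tendsto (fun k => comp (t k) V) atTop (𝓝 (comp β V)) :=
  Filter.Tendsto.compMeasurePreservingLp (f := fun _ : ℕ => V) tendsto_const_nhds
      ((rot_cont.tendsto β).comp ht) (fun k => rot_mp (t k)) (rot_mp β) ENNReal.one_ne_top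

lemma comp_coe (V : Lp ℝ 1 (volume : Measure G)) (t : G) :
    ∀ᵐ x : G, (comp t V : G → ℝ) x = V (x + t) :=
  Lp.coeFn_compMeasurePreserving V (rot_mp t)

/-- continuity of translations, almost everywhere along a subsequence. -/
lemma exists_subseq (u : G → ℝ) (hu : Measurable u) (t : ℕ → G) (β : G)
    (ht : Tendsto t atTop (𝓝 β)) :
    ∃ s : ℕ → ℕ, StrictMono s ∧
      ∀ᵐ x : G, Tendsto (fun k => u (x + t (s k))) atTop (𝓝 (u (x + β))) := by
  classical
  set v : G → ℝ := fun x => Real.arctan (u x) with hv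
  have hvm : Measurable v := Real.measurable_arctan.comp hu
  have hvb : ∀ x, ‖v x‖ ≤ Real.pi / 2 := by
    intro x
    rw [Real.norm_eq_abs, abs_le]
    exact ⟨(Real.neg_pi_div_two_lt_arctan _).le, (Real.arctan_lt_pi_div_two _).le⟩
  have hmem : MemLp v 1 (volume : Measure G) :=
    MemLp.of_bound hvm.aestronglyMeasurable (Real.pi / 2) (Eventually.of_forall hvb)
  obtain ⟨V, hV⟩ : ∃ V : Lp ℝ 1 (volume : Measure G), ∀ᵐ x : G, V x = v x :=
    ⟨hmem.toLp v, hmem.coeFn_toLp⟩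
  have h2 := tendstoInMeasure_of_tendsto_Lp (comp_tendsto V t β ht)
  obtain ⟨s, hs, hs2⟩ := h2.exists_seq_tendsto_ae
  refine ⟨s, hs, ?_⟩
  have h3 : ∀ t : G, ∀ᵐ x : G, (comp t V : G → ℝ) x = v (x + t) := by
    intro t
    have e2 : ∀ᵐ x : G, V (x + t) = v (x + t) := ae_shift hV t
    filter_upwards [comp_coe V t, e2] with x hx1 hx2
    rw [hx1]
    exact hx2
  have h4 : ∀ᵐ x : G, ∀ k, (comp (t k) V : G → ℝ) x = v (x + t k) :=
    ae_all_iff.2 fun k => h3 (t k)
  filter_upwards [hs2, h3 β, h4] with x hx hβ hk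
  have h5 : Tendsto (fun k => v (x + t (s k))) atTop (𝓝 (v (x + β))) := by
    rw [← hβ]
    refine hx.congr fun k => ?_
    exact hk (s k)
  have h6 := (Real.continuousAt_tan.2 (Real.cos_arctan_pos (u (x + β))).ne').tendsto.comp h5
  simpa [hv, Function.comp_def, Real.tan_arctan] using h6

/-- the cocycle. -/
def Pr (Φ : G → ℝ) (α : G) (n : ℕ) (x : G) : ℝ := ∏ j ∈ Finset.range n, Φ (x + j • α)

lemma Pr_measurable {Φ : G → ℝ} (hΦ : Measurable Φ) (α : G) (n : ℕ) :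
    Measurable (Pr Φ α n) := by
  unfold Pr
  refine Finset.measurable_prod _ fun j _ => ?_
  exact hΦ.comp (measurable_id.add_const _)

lemma Pr_nonneg {Φ : G → ℝ} (hΦ0 : ∀ x, 0 ≤ Φ x) (α : G) (n : ℕ) (x : G) :
    0 ≤ Pr Φ α n x := Finset.prod_nonneg fun _ _ => hΦ0 _

lemma Pr_add (Φ : G → ℝ) (α : G) (n m : ℕ) (x : G) :
    Pr Φ α (n + m) x = Pr Φ α n x * Pr Φ α m (x + n • α) := by
  unfold Pr
  rw [Finset.prod_range_add]
  congr 1
  refine Finset.prod_congr rfl fun j _ => ?_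
  rw [add_smul, add_assoc]

lemma Pr_comm (Φ : G → ℝ) (α : G) (n m : ℕ) (x : G) :
    Pr Φ α n x * Pr Φ α m (x + n • α) = Pr Φ α m x * Pr Φ α n (x + m • α) := by
  rw [← Pr_add, ← Pr_add, add_comm]

/-- the hypothesis: every target is approached. -/
def Hyp (Φ F : G → ℝ) (α : G) : Prop :=
  ∀ g : G → ℝ, Measurable g → (∃ C : ℝ, ∀ x, 1 ≤ g x ∧ g x ≤ C) →
    ∃ n : ℕ → ℕ, StrictMono n ∧
      ∀ᵐ x : G, Tendsto (fun k => Pr Φ α (n k) x * F (x + n k • α)) atTop (𝓝 (g x))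

/-- a target `g` is approached along `n`, with `n k • α → β`. -/
def Tgt (Φ F : G → ℝ) (α : G) (g : G → ℝ) (β : G) (n : ℕ → ℕ) : Prop :=
  StrictMono n ∧ Tendsto (fun k => n k • α) atTop (𝓝 β) ∧
    ∀ᵐ x : G, Tendsto (fun k => Pr Φ α (n k) x) atTop (𝓝 (g x / F (x + β)))

section

variable {Φ F : G → ℝ} {α : G}

lemma F_pos (hF : Measurable F) (hF0 : ∀ x, 0 ≤ F x) (H : Hyp Φ F α) : ∀ᵐ x : G, 0 < F x := by
  obtain ⟨n, hn, hlim⟩ := H (fun _ => 1) measurable_const ⟨1, fun _ => ⟨le_refl _, le_refl _⟩⟩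
  obtain ⟨β, s, hs, hβ⟩ := CompactSpace.tendsto_subseq (fun k => n k • α)
  -- indicator function of the zero set
  set u : G → ℝ := fun x => if F x = 0 then 1 else 0 with hu
  have hum : Measurable u :=
    Measurable.ite (hF (measurableSet_singleton 0)) measurable_const measurable_const
  obtain ⟨r, hr, hr2⟩ := exists_subseq u hum _ β hβ
  apply ae_unshift β
  filter_upwards [hlim, hr2] with x hx hx2
  by_contra hcon
  have hz : F (x + β) = 0 := le_antisymm (not_lt.1 hcon) (hF0 _)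
  have hu1 : u (x + β) = 1 := by simp [hu, hz]
  rw [hu1] at hx2
  have hev : ∀ᶠ k in atTop, u (x + ((fun k => n k • α) ∘ s) (r k)) > 1 / 2 :=
    hx2.eventually_const_lt (by norm_num)
  have hx3 : Tendsto (fun k => Pr Φ α (n (s (r k))) x * F (x + n (s (r k)) • α)) atTop (𝓝 1) :=
    hx.comp (hs.comp hr).tendsto_atTop
  have hev2 := hx3.eventually_const_lt (show (0 : ℝ) < 1 by norm_num)
  obtain ⟨k, hk1, hk2⟩ := (hev.and hev2).exists
  have : F (x + n (s (r k)) • α) = 0 := by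
    by_contra hne
    have : u (x + ((fun k => n k • α) ∘ s) (r k)) = 0 := by
      simp [hu, hne]
    rw [this] at hk1
    norm_num at hk1
  rw [this] at hk2
  simp at hk2

lemma Φ_pos (hΦ0 : ∀ x, 0 ≤ Φ x) (H : Hyp Φ F α) : ∀ᵐ x : G, 0 < Φ x := by
  obtain ⟨n, hn, hlim⟩ := H (fun _ => 1) measurable_const ⟨1, fun _ => ⟨le_refl _, le_refl _⟩⟩
  filter_upwards [hlim] with x hx
  by_contra hcon
  have hz : Φ x = 0 := le_antisymm (not_lt.1 hcon) (hΦ0 _)
  have hev := hx.eventually_const_lt (show (0 : ℝ) < 1 by norm_num)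
  have hev2 : ∀ᶠ k in atTop, 1 ≤ n k := hn.tendsto_atTop.eventually_ge_atTop 1
  obtain ⟨k, hk1, hk2⟩ := (hev.and hev2).exists
  have : Pr Φ α (n k) x = 0 := by
    unfold Pr
    refine Finset.prod_eq_zero (Finset.mem_range.2 hk2) ?_
    simpa using hz
  rw [this] at hk1
  simp at hk1

lemma tgt_exists (hF : Measurable F) (hF0 : ∀ x, 0 ≤ F x) (H : Hyp Φ F α) (g : G → ℝ)
    (hg : Measurable g) (hgb : ∃ C : ℝ, ∀ x, 1 ≤ g x ∧ g x ≤ C) :
    ∃ β n, Tgt Φ F α g β n := by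
  obtain ⟨n, hn, hlim⟩ := H g hg hgb
  obtain ⟨β, s, hs, hβ⟩ := CompactSpace.tendsto_subseq (fun k => n k • α)
  obtain ⟨r, hr, hr2⟩ := exists_subseq F hF _ β hβ
  refine ⟨β, fun k => n (s (r k)), hn.comp (hs.comp hr), hβ.comp hr.tendsto_atTop, ?_⟩
  filter_upwards [hlim, hr2, ae_shift (F_pos hF hF0 H) β] with x hx hx2 hpos
  have hx3 : Tendsto (fun k => Pr Φ α (n (s (r k))) x * F (x + n (s (r k)) • α)) atTop
      (𝓝 (g x)) := hx.comp (hs.comp hr).tendsto_atTop
  have hx4 := hx3.div hx2 hpos.ne'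
  refine hx4.congr' ?_
  filter_upwards [hx2.eventually_const_lt hpos] with k hk
  simp only [Function.comp, Pi.div_apply] at hk ⊢
  field_simp

lemma Tgt.sub {g : G → ℝ} {β : G} {n : ℕ → ℕ} (h : Tgt Φ F α g β n) {s : ℕ → ℕ}
    (hs : StrictMono s) : Tgt Φ F α g β (fun k => n (s k)) := by
  refine ⟨h.1.comp hs, h.2.1.comp hs.tendsto_atTop, ?_⟩
  filter_upwards [h.2.2] with x hx
  exact hx.comp hs.tendsto_atTop

lemma step_a (hΦ : Measurable Φ) {h : G → ℝ} {γ : G} {n : ℕ → ℕ} (hh : Tgt Φ F α h γ n)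
    (m : ℕ) :
    ∀ᵐ x : G, (h x / F (x + γ)) * Pr Φ α m (x + γ)
      = Pr Φ α m x * (h (x + m • α) / F (x + m • α + γ)) := by
  obtain ⟨s, hs, hs2⟩ := exists_subseq (Pr Φ α m) (Pr_measurable hΦ α m) _ γ hh.2.1
  have h' := hh.sub hs
  filter_upwards [hs2, h'.2.2, ae_shift h'.2.2 (m • α)] with x hx1 hx2 hx3
  have l1 := hx2.mul hx1
  have l2 : Tendsto (fun k => Pr Φ α m x * Pr Φ α (n (s k)) (x + m • α)) atTop
      (𝓝 (Pr Φ α m x * (h (x + m • α) / F (x + m • α + γ)))) := hx3.const_mul _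
  refine tendsto_nhds_unique (l1.congr fun k => ?_) l2
  exact Pr_comm Φ α (n (s k)) m x

lemma step_b (hΦ : Measurable Φ) (hF : Measurable F) {g h : G → ℝ} {β γ : G} {m n : ℕ → ℕ}
    (hhm : Measurable h) (hg : Tgt Φ F α g β m) (hh : Tgt Φ F α h γ n) :
    ∀ᵐ x : G, (h x / F (x + γ)) * (g (x + γ) / F (x + γ + β))
      = (g x / F (x + β)) * (h (x + β) / F (x + β + γ)) := by
  have hwm : Measurable (fun x => h x / F (x + γ)) :=
    hhm.div (hF.comp (measurable_id.add_const _))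
  obtain ⟨s, hs, hs2⟩ := exists_subseq (fun x => h x / F (x + γ)) hwm _ β hg.2.1
  have hg' := hg.sub hs
  have hall : ∀ᵐ x : G, ∀ l : ℕ, (h x / F (x + γ)) * Pr Φ α (m (s l)) (x + γ)
      = Pr Φ α (m (s l)) x * (h (x + (m (s l)) • α) / F (x + (m (s l)) • α + γ)) :=
    ae_all_iff.2 fun l => step_a hΦ hh (m (s l))
  filter_upwards [hs2, hg'.2.2, ae_shift hg'.2.2 γ, hall] with x hx1 hx2 hx3 hx4
  have l1 : Tendsto (fun l => (h x / F (x + γ)) * Pr Φ α (m (s l)) (x + γ)) atTop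
      (𝓝 ((h x / F (x + γ)) * (g (x + γ) / F (x + γ + β)))) := hx3.const_mul _
  have l2 := hx2.mul hx1
  exact tendsto_nhds_unique (l1.congr fun l => hx4 l) l2

lemma exists_sep (γ : G) (hγ : γ ≠ 0) : ∃ A : Set G, IsOpen A ∧ A.Nonempty ∧
    ∀ x ∈ A, x + γ ∉ A := by
  obtain ⟨U, V, hU, hV, h0, hγV, hd⟩ := t2_separation (Ne.symm hγ)
  refine ⟨U ∩ (fun x => x + γ) ⁻¹' V, hU.inter (hV.preimage (by fun_prop)), ⟨0, h0, ?_⟩, ?_⟩
  · simpa using hγV
  · rintro x ⟨-, hx2⟩ ⟨hx3, -⟩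
    exact Set.disjoint_left.1 hd hx3 hx2

lemma ae_open {A : Set G} (hA : IsOpen A) (hne : A.Nonempty) {p : G → Prop}
    (h : ∀ᵐ x : G, p x) : ∃ x ∈ A, p x := by
  by_contra hcon
  push Not at hcon
  have h1 : A ⊆ {x | ¬ p x} := fun x hx => hcon x hx
  have h2 : volume A = 0 := measure_mono_null h1 h
  exact (hA.measure_pos volume hne).ne' h2

/-- test functions. -/
def gA (A : Set G) (M : ℕ) (x : G) : ℝ := A.indicator (fun _ => (M : ℝ)) x + 1

lemma gA_meas {A : Set G} (hA : MeasurableSet A) (M : ℕ) : Measurable (gA A M) :=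
  (measurable_const.indicator hA).add_const _

lemma gA_mem {A : Set G} {M : ℕ} {x : G} (hx : x ∈ A) : gA A M x = (M : ℝ) + 1 := by
  simp [gA, hx]

lemma gA_not {A : Set G} {M : ℕ} {x : G} (hx : x ∉ A) : gA A M x = 1 := by
  simp [gA, hx]

lemma gA_bd (A : Set G) (M : ℕ) : ∃ C : ℝ, ∀ x, 1 ≤ gA A M x ∧ gA A M x ≤ C := by
  have : (0 : ℝ) ≤ M := Nat.cast_nonneg M
  refine ⟨(M : ℝ) + 1, fun x => ?_⟩
  by_cases hx : x ∈ A
  · rw [gA_mem hx]; constructor <;> linarith
  · rw [gA_not hx]; constructor <;> linarith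

lemma step3 (hΦ : Measurable Φ) (hF : Measurable F) (hF0 : ∀ x, 0 ≤ F x) (H : Hyp Φ F α)
    {h : G → ℝ} {γ : G} {n : ℕ → ℕ}
    (hhm : Measurable h) (hh1 : ∀ x, 1 ≤ h x) (hh : Tgt Φ F α h γ n) : γ = 0 := by
  classical
  by_contra hγ
  obtain ⟨A, hA, hAne, hsep⟩ := exists_sep γ hγ
  have hgm : ∀ M : ℕ, Measurable (gA A M) := fun M => gA_meas hA.measurableSet M
  have hgb : ∀ M : ℕ, ∃ C : ℝ, ∀ x, 1 ≤ gA A M x ∧ gA A M x ≤ C := fun M => gA_bd A M
  have hex : ∀ M : ℕ, ∃ β m, Tgt Φ F α (gA A M) β m := fun M =>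
    tgt_exists hF hF0 H (gA A M) (hgm M) (hgb M)
  choose β m hm using hex
  obtain ⟨β', s, hs, hβ⟩ := CompactSpace.tendsto_subseq β
  obtain ⟨r, hr, hr2⟩ := exists_subseq F hF _ β' hβ
  have hall : ∀ᵐ x : G, ∀ M : ℕ, (h x / F (x + γ)) *
      (gA A M (x + γ) / F (x + γ + β M))
      = (gA A M x / F (x + β M)) *
        (h (x + β M) / F (x + β M + γ)) :=
    ae_all_iff.2 fun M => step_b hΦ hF hhm (hm M) hh
  have hpos := F_pos hF hF0 H
  have hp2 : ∀ᵐ x : G, ∀ M : ℕ, 0 < F (x + β M) ∧ 0 < F (x + γ + β M) :=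
    ae_all_iff.2 fun M => by
      have h2 := ae_shift hpos (γ + β M)
      filter_upwards [ae_shift hpos (β M), h2] with x h1 h2
      exact ⟨h1, by rwa [← add_assoc] at h2⟩
  obtain ⟨x, hxA, ⟨⟨⟨hx1, hx2⟩, hx3⟩, hx4⟩⟩ :=
    ae_open hA hAne (((hr2.and hall).and hp2).and (ae_shift hpos γ))
  have key : ∀ M : ℕ, ((M : ℝ) + 1) * F (x + γ) ≤ h x * F (x + β M) := by
    intro M
    have e := hx2 M
    rw [gA_not (hsep x hxA), gA_mem hxA] at e
    have e1 : x + β M + γ = x + γ + β M := by abel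
    rw [e1] at e
    obtain ⟨p1, p2⟩ := hx3 M
    have hM : (0 : ℝ) ≤ M := Nat.cast_nonneg M
    have e2 : h x * F (x + β M) = ((M : ℝ) + 1) * h (x + β M) * F (x + γ) := by
      field_simp at e
      linarith
    rw [e2]
    have := hh1 (x + β M)
    have h3 : (0 : ℝ) ≤ ((M : ℝ) + 1) * F (x + γ) := by positivity
    nlinarith
  have l1 : Tendsto (fun k => h x * F (x + (β ∘ s) (r k))) atTop (𝓝 (h x * F (x + β'))) :=
    hx1.const_mul _
  have l2 : Tendsto (fun k => ((s (r k) : ℝ) + 1) * F (x + γ)) atTop atTop := by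
    refine Tendsto.atTop_mul_const hx4 ?_
    exact tendsto_atTop_add_const_right _ _
      (tendsto_natCast_atTop_atTop.comp (hs.comp hr).tendsto_atTop)
  have l3 : Tendsto (fun k => h x * F (x + (β ∘ s) (r k))) atTop atTop :=
    tendsto_atTop_mono (fun k => key (s (r k))) l2
  exact not_tendsto_nhds_of_tendsto_atTop l3 _ l1

theorem core (hΦ : Measurable Φ) (hF : Measurable F) (hΦ0 : ∀ x, 0 ≤ Φ x)
    (hF0 : ∀ x, 0 ≤ F x) (H : Hyp Φ F α) : False := by
  classical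
  have hFp := F_pos hF hF0 H
  have hΦp := Φ_pos hΦ0 H
  have inv : ∀ g : G → ℝ, Measurable g → (∃ C : ℝ, ∀ x, 1 ≤ g x ∧ g x ≤ C) →
      ∀ᵐ x : G, g x * F (x + α) = g (x + α) * F x := by
    intro g hg hgb
    obtain ⟨β, n, ht⟩ := tgt_exists hF hF0 H g hg hgb
    have hβ : β = 0 := step3 hΦ hF hF0 H hg (fun x => (hgb.choose_spec x).1) ht
    subst hβ
    filter_upwards [step_a hΦ ht 1, hFp, ae_shift hFp α, hΦp] with x hx hp hp2 hp3
    simp only [add_zero, one_smul] at hx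
    have hPr : Pr Φ α 1 x = Φ x := by simp [Pr]
    rw [hPr] at hx
    field_simp at hx
    linarith
  have inv1 : ∀ᵐ x : G, F (x + α) = F x := by
    filter_upwards [inv (fun _ => 1) measurable_const ⟨1, fun _ => ⟨le_refl _, le_refl _⟩⟩]
      with x hx
    simpa using hx
  by_cases hα : α = 0
  · -- trivial rotation
    have key : ∀ c : ℝ, 1 ≤ c → ∀ᵐ x : G, F x = c := by
      intro c hc
      obtain ⟨β, n, ht⟩ := tgt_exists hF hF0 H (fun _ => c) measurable_const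
        ⟨c, fun _ => ⟨hc, le_refl _⟩⟩
      have hβ : β = 0 := step3 hΦ hF hF0 H measurable_const (fun _ => hc) ht
      subst hβ
      filter_upwards [ht.2.2, hFp, hΦp] with x hx hp hp2
      have hPr : ∀ n, Pr Φ α n x = Φ x ^ n := by
        intro n
        simp [Pr, hα]
      simp only [hPr, add_zero] at hx
      rcases lt_trichotomy (Φ x) 1 with h | h | h
      · have l := (tendsto_pow_atTop_nhds_zero_of_lt_one hp2.le h).comp ht.1.tendsto_atTop
        have := tendsto_nhds_unique hx l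
        have : 0 < c / F x := by positivity
        linarith
      · simp only [h, one_pow] at hx
        have := tendsto_nhds_unique hx tendsto_const_nhds
        field_simp at this
        linarith
      · have l := (tendsto_pow_atTop_atTop_of_one_lt h).comp ht.1.tendsto_atTop
        exact absurd hx (not_tendsto_nhds_of_tendsto_atTop l _)
    obtain ⟨x, -, h1, h2⟩ := ae_open isOpen_univ univ_nonempty
      ((key 1 le_rfl).and (key 2 (by norm_num)))
    linarith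
  · obtain ⟨A, hA, hAne, hsep⟩ := exists_sep α hα
    have h2 := inv (gA A 1) (gA_meas hA.measurableSet 1) (gA_bd A 1)
    obtain ⟨x, hxA, ⟨hx1, hx2⟩, hx3⟩ := ae_open hA hAne ((inv1.and h2).and hFp)
    rw [gA_mem hxA, gA_not (hsep x hxA), hx1] at hx2
    norm_num at hx2
    linarith

end

end

end Pool.Agent.R784.WT
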